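import Pool.Agent.W669.HD.Stm2
import Pool.Agent.W150.HD.SUM
import Pool.Agent.W688.HD.ADB

/-!
# Project HD (helper669): components of a tensor living on a small subspace
-/

set_option autoImplicit false

namespace Pool.Agent.W612.HD

open Pool.Agent.W669.HD Pool.Agent.W666.GB Pool.Agent.W150.HD Finset

theorem VEC : Pool.Agent.W669.HD.S_VEC := by
  classical
  intro m V _ _ e R W hm hR hW hL hsec
  obtain ⟨e', r, hr, hperp⟩ := Pool.Agent.W688.HD.adb m V e W hm hW
  obtain ⟨f, hf⟩ : ∃ f : Fin 4 → V, f = fun i => e' (r i) := ⟨_, rfl⟩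
  have hfo : Orthonormal ℝ f := by
    rw [hf]
    exact e'.orthonormal.comp r hr
  have hk : Kills f R := by
    intro x hx y z w
    refine hL x ?_ y z w
    rw [← e'.sum_repr x]
    refine Submodule.sum_mem _ fun j _ => ?_
    rw [e'.repr_apply_apply]
    by_cases h : ∃ i, r i = j
    · obtain ⟨i, rfl⟩ := h
      have h1 := hx i
      rw [hf] at h1
      rw [h1, zero_smul]
      exact Submodule.zero_mem _
    · exact Submodule.smul_mem _ _ (hperp j fun i hi => h ⟨i, hi⟩)
  have hbi := curv_bi hR
  refine ⟨fun j p => inner ℝ (f p) (e j), fun p q s t => - R (f p) (f q) (f s) (f t), ?_, ?_, ?_⟩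
  · intro i j k l
    change - R (e i) (e j) (e k) (e l) = _
    rw [expand hbi hfo hk]
    simp only [← sum_neg_distrib]
    refine sum_congr rfl fun p _ => sum_congr rfl fun q _ => sum_congr rfl fun s _ =>
      sum_congr rfl fun t _ => by ring
  · refine ⟨?_, ?_, ?_⟩
    · intro i j k l
      rw [hR.anti]
    · intro i j k l
      rw [hR.pair]
    · intro i j k l
      have := hR.bianchi (f i) (f j) (f k) (f l)
      linarith
  · intro x y
    rw [S4_sec hbi hfo hk]
    have := hsec (∑ i, x i • f i) (∑ j, y j • f j)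
    linarith

end Pool.Agent.W612.HD
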